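import Pool.Agent.Lib.MP_c80ac4_an.CN.Final
import Pool.Agent.Lib.MP_c80ac4_an.PW
import Pool.Agent.Lib.MP_c80ac4_an.Box
import Pool.Agent.Lib.MP_c80ac4_an.UN.Main
import Pool.Agent.Lib.MP_c80ac4_an.SD.Main
import Pool.Agent.Lib.MP_c80ac4_an.HY.Main
import Pool.Agent.Lib.MP_c80ac4_an.CX.Main
import Pool.Agent.Lib.MP_c80ac4_an.HZ.Main

/-!
# The boundary sets of forcing sets

A closed subset `E` of the unit circle is the boundary set `closure S ∩ T` of a forcing set `S` if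
and only if it satisfies the lacunary Sidon inequalities, if and only if every function with
Hadamard gaps that is bounded on each single radius ending in `E` (with a bound that may depend on
the radius) is bounded in the disc. Power decay of the Fourier coefficients of a measure on `E` is
sufficient, no slower decay is sufficient, and no decay at all is necessary; positive box dimension
(uniformly for all images of `E` under `z ↦ z ^ m`) is necessary, positive Hausdorff dimension is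
not; countable sets are negligible. Sets of almost full length may fail, and the union of two closed
sets of almost full length that both fail may be a boundary set. In the space of all nonempty closed
subsets of the circle the boundary sets form a dense countable intersection of countable unions of
closed sets of the first category, which is not a countable union of countable intersections of open
sets.
-/

namespace Pool.Agent.Results.MP_c80ac4_an.BoundarySets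

open Forcing Metric Set MeasureTheory Filter Topology

/-- `E` is the part on the unit circle of the closure of some forcing subset of the disc. -/
def IsBoundarySet (E : Set ℂ) : Prop :=
  ∃ S : Set ℂ, S ⊆ ball 0 1 ∧ IsForcing S ∧ closure S ∩ sphere 0 1 = E

/-- `(f (w j * ζ))_j` is bounded for every single `ζ ∈ E`. -/
def PointwiseBdd (c : ℕ → ℂ) (w : ℕ → ℂ) (E : Set ℂ) : Prop :=
  ∀ ζ ∈ E, ∃ M : ℝ, ∀ j, ‖ps c (w j * ζ)‖ ≤ M

/-- The radial set over `E`. -/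
def rad (E : Set ℂ) : Set ℂ := {z | ∃ t ∈ Ico (0 : ℝ) 1, ∃ ζ ∈ E, z = (t : ℂ) * ζ}

lemma rad_subset {E : Set ℂ} (hE : E ⊆ sphere 0 1) : rad E ⊆ ball 0 1 := by
  rintro z ⟨t, ht, ζ, hζ, rfl⟩
  have h1 : ‖ζ‖ = 1 := by simpa using hE hζ
  rw [mem_ball_zero_iff, norm_mul, h1, mul_one, Complex.norm_real, Real.norm_of_nonneg ht.1]
  exact ht.2

lemma closure_rad {E : Set ℂ} (hE : E ⊆ sphere 0 1) (hcl : IsClosed E) :
    closure (rad E) ∩ sphere 0 1 = E := by
  have hcomp : IsCompact E := (isCompact_sphere (0 : ℂ) 1).of_isClosed_subset hcl hE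
  apply Subset.antisymm
  · rintro z ⟨hz1, hz2⟩
    have hz2' : ‖z‖ = 1 := by simpa using hz2
    have hK : IsCompact ((fun p : ℝ × ℂ => (p.1 : ℂ) * p.2) '' (Icc (0 : ℝ) 1 ×ˢ E)) :=
      (isCompact_Icc.prod hcomp).image (by fun_prop)
    have hsub : rad E ⊆ (fun p : ℝ × ℂ => (p.1 : ℂ) * p.2) '' (Icc (0 : ℝ) 1 ×ˢ E) := by
      rintro w ⟨t, ht, ζ, hζ, rfl⟩
      exact ⟨(t, ζ), ⟨⟨ht.1, ht.2.le⟩, hζ⟩, rfl⟩
    obtain ⟨⟨t, ζ⟩, ⟨ht, hζ⟩, hz⟩ := closure_minimal hsub hK.isClosed hz1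
    simp only at hz ht hζ
    have h1 : ‖ζ‖ = 1 := by simpa using hE hζ
    have h2 : t = 1 := by
      rw [← hz, norm_mul, h1, mul_one, Complex.norm_real, Real.norm_of_nonneg ht.1] at hz2'
      exact hz2'
    rw [← hz, h2]
    simpa using hζ
  · intro ζ hζ
    refine ⟨?_, hE hζ⟩
    have hlim : Tendsto (fun t : ℝ => (t : ℂ) * ζ) (𝓝[<] 1) (𝓝 ζ) := by
      have hc : Continuous fun t : ℝ => (t : ℂ) * ζ := by fun_prop
      have := (hc.tendsto 1).mono_left (nhdsWithin_le_nhds (s := Iio 1))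
      simpa using this
    apply mem_closure_of_tendsto hlim
    filter_upwards [Ioo_mem_nhdsLT (zero_lt_one (α := ℝ))] with t ht
    exact ⟨t, ⟨ht.1.le, ht.2⟩, ζ, hζ, rfl⟩

lemma forcing_rad {E : Set ℂ} (hE : E ⊆ sphere 0 1) (h : SidonOn E) : IsForcing (rad E) := by
  refine forcing_of_sidonOn hE (fun ρ hρ => ?_) h
  refine ⟨(((max ρ 0 + 1) / 2 : ℝ) : ℂ), ?_, ?_, fun z hz => subset_closure ?_⟩
  · rw [Complex.norm_real, Real.norm_of_nonneg (by linarith [le_max_right ρ 0])]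
    linarith [le_max_left ρ 0, max_lt hρ one_pos]
  · rw [Complex.norm_real, Real.norm_of_nonneg (by linarith [le_max_right ρ 0])]
    linarith [max_lt hρ one_pos]
  · exact ⟨_, ⟨by linarith [le_max_right ρ 0], by linarith [max_lt hρ one_pos]⟩, z, hz, rfl⟩

/-- **The boundary sets of forcing sets.** -/
theorem result :
    (∀ E : Set ℂ, IsClosed E → E ⊆ sphere 0 1 →
      (IsBoundarySet E ↔ SidonOn E) ∧
      (IsBoundarySet E ↔ ∀ c : ℕ → ℂ, (∃ q : ℝ, 1 < q ∧ Lac q c) → Conv c →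
        (∀ ζ ∈ E, ∃ M : ℝ, ∀ t ∈ Ico (0 : ℝ) 1, ‖ps c (t * ζ)‖ ≤ M) → BddOnSet c (ball 0 1)) ∧
      (IsBoundarySet E ↔ ∀ w : ℕ → ℂ, (∀ j, ‖w j‖ < 1) → Tendsto (fun j => ‖w j‖) atTop (𝓝 1) →
        ∀ c : ℕ → ℂ, (∃ q : ℝ, 1 < q ∧ Lac q c) → Conv c → PointwiseBdd c w E →
          BddOnSet c (ball 0 1)) ∧
      (∀ (μ : Measure ℂ) (A δ : ℝ), IsProbabilityMeasure μ → 0 < δ → (∀ᵐ z ∂μ, z ∈ E) →
        (∀ n : ℕ, 1 ≤ n → ‖∫ z, z ^ n ∂μ‖ ≤ A * (n : ℝ) ^ (-δ)) → IsBoundarySet E) ∧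
      (IsBoundarySet E → ∃ τ : ℝ, 0 < τ ∧ ∃ ρ₀ : ℝ, 0 < ρ₀ ∧ ∀ m : ℕ, 1 ≤ m → ∀ ρ : ℝ, 0 < ρ →
        ρ < ρ₀ → ∀ T : Finset ℂ, (∀ z ∈ E, ∃ w ∈ T, ‖z ^ m - w‖ ≤ ρ) →
          ρ ^ (-τ) ≤ (T.card : ℝ)) ∧
      (∀ K : Set ℂ, IsClosed K → K ⊆ E → (E \ K).Countable →
        (IsBoundarySet E ↔ IsBoundarySet K))) ∧
    (∀ ε : ℝ, 0 < ε → ∃ E₁ E₂ : Set ℂ, (IsClosed E₁ ∧ E₁ ⊆ sphere 0 1) ∧
      (IsClosed E₂ ∧ E₂ ⊆ sphere 0 1) ∧
      volume {t : ℝ | t ∈ Icc 0 (2 * Real.pi) ∧ Complex.exp (t * Complex.I) ∉ E₁}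
        < ENNReal.ofReal ε ∧
      volume {t : ℝ | t ∈ Icc 0 (2 * Real.pi) ∧ Complex.exp (t * Complex.I) ∉ E₂}
        < ENNReal.ofReal ε ∧
      ¬ IsBoundarySet E₁ ∧ ¬ IsBoundarySet E₂ ∧ IsBoundarySet (E₁ ∪ E₂)) ∧
    -- the decay condition is sharp
    (∀ w : ℕ → ℝ, Tendsto w atTop (𝓝 0) → ∃ (E : Set ℂ) (μ : Measure ℂ) (A : ℝ),
      IsClosed E ∧ E ⊆ sphere 0 1 ∧ ¬ IsBoundarySet E ∧ IsProbabilityMeasure μ ∧
      (∀ᵐ z ∂μ, z ∈ E) ∧ ∀ n : ℕ, 1 ≤ n → ‖∫ z, z ^ n ∂μ‖ ≤ A * (n : ℝ) ^ (-w n)) ∧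
    -- neither decay nor positive Hausdorff dimension is necessary
    (∃ E : Set ℂ, IsClosed E ∧ E ⊆ sphere 0 1 ∧ IsBoundarySet E ∧ dimH E = 0 ∧
      ∀ μ : Measure ℂ, IsProbabilityMeasure μ → (∀ᵐ z ∂μ, z ∈ E) →
        ¬ Tendsto (fun n : ℕ => ∫ z, z ^ n ∂μ) atTop (𝓝 0)) ∧
    -- the family of all boundary sets
    (∃ F : ℕ → ℕ → Set (TopologicalSpace.NonemptyCompacts Circle),
      (∀ i j, IsClosed (F i j)) ∧ {K : TopologicalSpace.NonemptyCompacts Circle |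
        IsBoundarySet ((fun z : Circle => (z : ℂ)) '' (K : Set Circle))} = ⋂ i, ⋃ j, F i j) ∧
    (¬ ∃ G : ℕ → ℕ → Set (TopologicalSpace.NonemptyCompacts Circle),
      (∀ i j, IsOpen (G i j)) ∧ {K : TopologicalSpace.NonemptyCompacts Circle |
        IsBoundarySet ((fun z : Circle => (z : ℂ)) '' (K : Set Circle))} = ⋃ i, ⋂ j, G i j) ∧
    Dense {K : TopologicalSpace.NonemptyCompacts Circle |
      IsBoundarySet ((fun z : Circle => (z : ℂ)) '' (K : Set Circle))} ∧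
    IsMeagre {K : TopologicalSpace.NonemptyCompacts Circle |
      IsBoundarySet ((fun z : Circle => (z : ℂ)) '' (K : Set Circle))} := by
  have key : ∀ E : Set ℂ, IsClosed E → E ⊆ sphere 0 1 → (IsBoundarySet E ↔ SidonOn E) := by
    intro E hE hE1
    constructor
    · rintro ⟨S, hS, hF, rfl⟩
      exact sidonOn_of_forcing hS hF
    · intro h
      exact ⟨rad E, rad_subset hE1, forcing_rad hE1 h, closure_rad hE1 hE⟩
  have hfam : {K : TopologicalSpace.NonemptyCompacts Circle |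
      IsBoundarySet ((fun z : Circle => (z : ℂ)) '' (K : Set Circle))} =
      {K | SidonOn (HY.im K)} := by
    ext K
    have hK : IsClosed (HY.im K) :=
      (K.isCompact.image (by fun_prop : Continuous fun z : Circle => (z : ℂ))).isClosed
    exact key (HY.im K) hK (HY.im_subset K)
  refine ⟨fun E hE hE1 => ⟨key E hE hE1, ?_, ?_, ?_, ?_, ?_⟩, fun ε hε => ?_, fun w hw => ?_, ?_,
    ⟨HY.F, HY.isClosed_F, hfam.trans HY.sidon_eq⟩, fun ⟨G, hG, h⟩ => CX.not_Gds ⟨G, hG, hfam ▸ h⟩,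
    hfam ▸ HY.dense_sidon, hfam ▸ HY.meagre_sidon⟩
  · rw [key E hE hE1]
    constructor
    · rintro h c ⟨q, hq, hL⟩ hc hb
      refine bdd_of_pointwise hE hE1 hq (h q hq) (fun j => ((1 - 1 / ((j : ℝ) + 1) : ℝ) : ℂ))
        (fun j => ?_) ?_ hL hc fun ζ hζ => ?_
      · have h1 : (0 : ℝ) < 1 / ((j : ℝ) + 1) := by positivity
        have h2 : 1 / ((j : ℝ) + 1) ≤ 1 := by
          rw [div_le_one (by positivity)]
          linarith [(Nat.cast_nonneg j : (0 : ℝ) ≤ j)]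
        rw [Complex.norm_real, Real.norm_of_nonneg (by linarith)]
        linarith
      · have h3 : Tendsto (fun j : ℕ => 1 - 1 / ((j : ℝ) + 1)) atTop (𝓝 (1 - 0)) :=
          tendsto_one_div_add_atTop_nhds_zero_nat.const_sub 1
        rw [sub_zero] at h3
        have h4 := h3.abs
        rw [abs_one] at h4
        refine h4.congr fun j => ?_
        rw [Complex.norm_real, Real.norm_eq_abs]
      · obtain ⟨M, hM⟩ := hb ζ hζ
        refine ⟨M, fun j => hM _ ⟨?_, ?_⟩⟩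
        · have h2 : 1 / ((j : ℝ) + 1) ≤ 1 := by
            rw [div_le_one (by positivity)]
            linarith [(Nat.cast_nonneg j : (0 : ℝ) ≤ j)]
          linarith
        · have h1 : (0 : ℝ) < 1 / ((j : ℝ) + 1) := by positivity
          linarith
    · intro h
      refine (closure_rad hE1 hE) ▸ sidonOn_of_forcing (rad_subset hE1) ?_
      intro c hq hc hb
      obtain ⟨M, hM⟩ := hb
      exact h c hq hc fun ζ hζ => ⟨M, fun t ht => hM _ ⟨t, ht, ζ, hζ, rfl⟩⟩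
  · rw [key E hE hE1]
    constructor
    · rintro h w hw hw1 c ⟨q, hq, hL⟩ hc hb
      exact bdd_of_pointwise hE hE1 hq (h q hq) w hw hw1 hL hc hb
    · intro h
      refine (closure_rad hE1 hE) ▸ sidonOn_of_forcing (rad_subset hE1) ?_
      intro c hq hc hb
      obtain ⟨M, hM⟩ := hb
      have hb' : ∀ j : ℕ, (1 - 1 / ((j : ℝ) + 1) : ℝ) ∈ Ico (0 : ℝ) 1 := fun j => by
        have h1 : (0 : ℝ) < 1 / ((j : ℝ) + 1) := by positivity
        have h2 : 1 / ((j : ℝ) + 1) ≤ 1 := by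
          rw [div_le_one (by positivity)]
          linarith [(Nat.cast_nonneg j : (0 : ℝ) ≤ j)]
        exact ⟨by linarith, by linarith⟩
      refine h (fun j => ((1 - 1 / ((j : ℝ) + 1) : ℝ) : ℂ)) (fun j => ?_) ?_ c hq hc
        fun ζ hζ => ⟨M, fun j => hM _ ⟨_, hb' j, ζ, hζ, rfl⟩⟩
      · rw [Complex.norm_real, Real.norm_of_nonneg (hb' j).1]
        exact (hb' j).2
      · have h3 : Tendsto (fun j : ℕ => 1 - 1 / ((j : ℝ) + 1)) atTop (𝓝 (1 - 0)) :=
          tendsto_one_div_add_atTop_nhds_zero_nat.const_sub 1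
        rw [sub_zero] at h3
        refine h3.congr fun j => ?_
        rw [Complex.norm_real, Real.norm_of_nonneg (hb' j).1]
  · intro μ A δ hμ hδ h1 h2
    rw [key E hE hE1]
    exact sidonOn_of_decay hδ μ (h1.mono fun z hz => mem_sphere_zero_iff_norm.1 (hE1 hz)) h1 h2
  · intro h
    rw [key E hE hE1] at h
    exact box_necessary hE1 h
  · intro K hK hKE hc
    rw [key E hE hE1, key K hK (hKE.trans hE1)]
    exact ⟨fun h q hq => sidonIneq_of_diff_countable hK hE hE1 hKE hc hq (h q hq),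
      fun h => h.mono hKE⟩
  · obtain ⟨E₁, E₂, h1, h2, h3, h4, h5, h6, h7⟩ := UN.exists_union ε hε
    exact ⟨E₁, E₂, h1, h2, h3, h4, fun h => h5 ((key E₁ h1.1 h1.2).1 h),
      fun h => h6 ((key E₂ h2.1 h2.2).1 h),
      (key (E₁ ∪ E₂) (h1.1.union h2.1) (union_subset h1.2 h2.2)).2 h7⟩
  · obtain ⟨E, μ, C, h1, h2, h3, h4, h5, h6⟩ := SD.exists_sharp w hw
    exact ⟨E, μ, C, h1, h2, fun h => h3 ((key E h1 h2).1 h), h4, h5, h6⟩
  · obtain ⟨E, h1, h2, h3, h4⟩ := HZ.exists_dim_zero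
    exact ⟨E, h1, h2, (key E h1 h2).2 h3, h4⟩

end Pool.Agent.Results.MP_c80ac4_an.BoundarySets
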