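import Pool.Agent.Lib.MP_c80ac4_an.Coarse
import Pool.Agent.Lib.MP_c80ac4_an.Curve
import Pool.Agent.Lib.MP_c80ac4_an.Ctbl
import Pool.Agent.Lib.MP_c80ac4_an.CN.Final

/-!
# Forcing = bounded coefficients + coarse geometry; connected and coarsely connected sets

An arbitrary subset `S` of the unit disc is forcing if and only if (i) every function with Hadamard
gaps that is bounded on `S` has bounded coefficients and (ii) a condition on the partial sums of
Hadamard series with bounded coefficients at the positions of the points of `S`; for given (i),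
forcing depends only on the hyperbolic neighbourhoods of `S`. Condition (i) holds if `S` is thick at
all scales, for instance if `S` contains a connected set with a limit point on the unit circle. If a
hyperbolic neighbourhood of `S` (with a disc) is connected, or contains dilates of the boundary set
`E` of `S`, then (ii) can be replaced by the lacunary Sidon inequalities on `E`. If `S` itself (with
a disc) is connected then (i) is not needed: `S` is forcing if and only if the lacunary Sidon
inequalities hold on `E`; this is so if `E` contains an arc and it is not so if `E` is countable. A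
curve that tends to the unit circle is forcing if and only if it does not tend to a point.
-/

namespace Pool.Agent.Results.MP_c80ac4_an.CoarseCriterion

open Forcing Metric Set Filter Topology

/-- **Coarse criterion.** -/
theorem result :
    (∀ S : Set ℂ, S ⊆ ball 0 1 →
      (IsForcing S ↔ CoeffForcing S ∧ SumForcing S) ∧
      (∀ ρ : ℝ, 0 ≤ ρ → ρ < 1 →
        (IsForcing S ↔ CoeffForcing S ∧ IsForcing (nbhd ρ S)) ∧
        ((∃ r : ℝ, r < 1 ∧ IsPreconnected (nbhd ρ S ∪ closedBall 0 r)) ∨
          (∀ t : ℝ, t < 1 → ∃ w : ℂ, t < ‖w‖ ∧ ‖w‖ < 1 ∧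
            ∀ ζ ∈ closure S ∩ sphere 0 1, w * ζ ∈ closure (nbhd ρ S)) →
          (IsForcing S ↔ CoeffForcing S ∧ SidonOn (closure S ∩ sphere 0 1)))) ∧
      (Thick S → CoeffForcing S) ∧
      ((∃ S₀ ⊆ S, IsPreconnected S₀ ∧ ∃ ζ ∈ closure S₀, ‖ζ‖ = 1) → CoeffForcing S) ∧
      (∀ r : ℝ, r < 1 → IsPreconnected (S ∪ closedBall 0 r) →
        (IsForcing S ↔ SidonOn (closure S ∩ sphere 0 1)) ∧
        ((∃ α β : ℝ, α < β ∧ ∀ t ∈ Icc α β, Complex.exp (t * Complex.I) ∈ closure S) →
          IsForcing S) ∧
        ((closure S ∩ sphere 0 1).Countable → ¬ IsForcing S))) ∧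
    (∀ γ : ℝ → ℂ, ContinuousOn γ (Ico 0 1) → (∀ t ∈ Ico (0 : ℝ) 1, ‖γ t‖ < 1) →
      Tendsto (fun t => ‖γ t‖) (𝓝[<] 1) (𝓝 1) →
      (IsForcing (γ '' Ico 0 1) ↔ ¬ ∃ ζ : ℂ, Tendsto γ (𝓝[<] 1) (𝓝 ζ))) := by
  refine ⟨?_, fun γ h1 h2 h3 => curve_forcing_iff h1 h2 h3⟩
  intro S hS
  refine ⟨forcing_iff_sum hS, fun ρ h0 h1 => ⟨forcing_iff_nbhd hS h0 h1, ?_⟩,
    coeffForcing_of_thick hS, ?_, ?_⟩
  · rintro (⟨r, hr, hconn⟩ | h)
    · exact coarse_connected_iff hS h0 h1 hr hconn
    · exact net_iff hS h0 h1 h
  · rintro ⟨S₀, h0, hconn, hlim⟩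
    exact coeffForcing_of_thick hS (thick_of_connected hS h0 hconn hlim)
  · intro r hr hconn
    have hmain := connected_forcing_iff hS hr hconn
    set E : Set ℂ := closure S ∩ sphere 0 1 with hE
    have hE1 : E ⊆ sphere 0 1 := inter_subset_right
    have hEcl : IsClosed E := isClosed_closure.inter isClosed_sphere
    refine ⟨hmain, ?_, ?_⟩
    · rintro ⟨α, β, hαβ, harc⟩
      rw [hmain]
      intro q hq
      obtain ⟨N, C, hC⟩ := sidonIneq_arc q (β - α) hq (by linarith)
      refine ⟨N, C, (hC α β le_rfl).mono ?_⟩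
      rintro z ⟨t, ht, rfl⟩
      refine ⟨harc t ht, ?_⟩
      rw [mem_sphere_zero_iff_norm, Complex.norm_exp_ofReal_mul_I]
    · intro hcount hF
      have hSid := hmain.1 hF
      obtain ⟨N, C, hC⟩ := sidonIneq_of_diff_countable (K := ∅) isClosed_empty hEcl hE1
        (empty_subset _) (by rw [sdiff_empty]; exact hcount) (q := 2) one_lt_two
        (hSid 2 one_lt_two)
      have hLs : LacSet 2 N (({N + 1} : Finset ℕ) : Set ℕ) := by
        constructor
        · intro m hm
          have : m = N + 1 := by simpa using hm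
          omega
        · intro m hm n hn hmn
          have h1 : m = N + 1 := by simpa using hm
          have h2 : n = N + 1 := by simpa using hn
          omega
      have := hC {N + 1} (fun _ => 1) 0 hLs le_rfl (fun z hz => absurd hz (Set.notMem_empty z))
      simp at this
      linarith

end Pool.Agent.Results.MP_c80ac4_an.CoarseCriterion
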