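import Pool.Agent.Lib.MP_c80ac4_an.Local.Mom
import Pool.Agent.Lib.MP_c80ac4_an.Local.ThinEx
import Pool.Agent.Lib.MP_c80ac4_an.Local.Ratio

/-!
# Forcing sets: a local criterion, and how thin a forcing set can be

An arbitrary subset `S` of the unit disc is forcing if and only if for every ratio `q > 1` there is
a constant `C` such that for every `K` there is a radius `ρ < 1` for which every polynomial `P` with
`q`-lacunary exponents bounded by one on the points of `S` of modulus at most `ρ` has the sum of the
moduli of its coefficients of order at most `K` bounded by `C`; equivalently, all data of modulus at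
most one that vanish beyond `K` are exactly the moments, on any finite `q`-lacunary set of exponents,
of measures of mass at most `C` on finitely many points of `S` of modulus at most `ρ`. The
constants may also be allowed to depend on the set of exponents. So forcing is decided by finite
moment problems on compact parts of `S`.

A forcing set has an accumulation point in the disc; on the other hand every boundary set of a
forcing set is the boundary set of a countable forcing set with only finitely many accumulation
points in each smaller concentric disc. No single ratio decides: for every `q` there is a set that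
forces boundedness for the functions with gaps of some larger ratio but not for those of ratio `q`.
-/

namespace Pool.Agent.Results.MP_c80ac4_an.LocalCriterion

open Forcing Metric Set Filter Topology

/-- **A local criterion for arbitrary sets, and thin forcing sets.** -/
theorem result :
    (∀ S : Set ℂ, S ⊆ ball 0 1 →
      (IsForcing S ↔ ∀ q : ℝ, 1 < q → ∃ C : ℝ, LocalIneq q C S) ∧
      (IsForcing S ↔ ∀ q : ℝ, 1 < q → ∃ C : ℝ, LocalMoments q C S) ∧
      (IsForcing S ↔ ∀ (q : ℝ) (L : Set ℕ), 1 < q → LacSet q 1 L → ∃ C : ℝ, LocalIneqOn L C S) ∧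
      (IsForcing S → ∃ z ∈ ball (0 : ℂ) 1, AccPt z (𝓟 S))) ∧
    (∀ E : Set ℂ, IsClosed E → E ⊆ sphere 0 1 →
      (SidonOn E ↔ ∃ S : Set ℂ, S ⊆ ball 0 1 ∧ IsForcing S ∧ closure S ∩ sphere 0 1 = E ∧
        S.Countable ∧ ∀ ρ : ℝ, ρ < 1 → ({z | AccPt z (𝓟 S)} ∩ closedBall 0 ρ).Finite)) ∧
    (∀ q : ℝ, ∃ Q : ℝ, q < Q ∧ ∃ S : Set ℂ, S ⊆ ball 0 1 ∧
      (∀ c : ℕ → ℂ, Lac Q c → Conv c → BddOnSet c S → BddOnSet c (ball 0 1)) ∧
      ∃ c : ℕ → ℂ, Lac q c ∧ Conv c ∧ BddOnSet c S ∧ ¬ BddOnSet c (ball 0 1)) := by
  refine ⟨fun S hS => ⟨isForcing_iff_local hS, isForcing_iff_moments hS, isForcing_iff_localOn hS,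
    fun hF => ?_⟩, fun E hEcl hE => ⟨fun h => ?_, ?_⟩, no_single_ratio⟩
  · have h1 : ∃ r : ℝ, r < 1 ∧ (S ∩ closedBall 0 r).Infinite := by
      by_contra hcon
      push Not at hcon
      exact not_forcing_of_discrete hS (fun ρ hρ => hcon ρ hρ) hF
    obtain ⟨r, hr, hinf⟩ := h1
    obtain ⟨z, hz, hacc⟩ := hinf.exists_accPt_of_subset_isCompact (isCompact_closedBall (0 : ℂ) r)
      inter_subset_right
    refine ⟨z, ?_, hacc.mono (principal_mono.2 inter_subset_left)⟩
    rw [mem_closedBall_zero_iff] at hz
    exact mem_ball_zero_iff.2 (hz.trans_lt hr)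
  · obtain ⟨S, h1, h2, h3, h4, h5⟩ := exists_thin_forcing hEcl hE h
    exact ⟨S, h1, h4, h5, h2, h3⟩
  · rintro ⟨S, hS, hF, hE', -, -⟩
    rw [← hE']
    exact sidonOn_of_forcing hS hF

end Pool.Agent.Results.MP_c80ac4_an.LocalCriterion
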