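import Pool.Agent.Lib.MP_c80ac4_an.Criterion
import Pool.Agent.Lib.MP_c80ac4_an.HSet
import Pool.Agent.Lib.MP_c80ac4_an.HM.Defs
import Pool.Agent.Lib.MP_c80ac4_an.DP.Dil
import Pool.Agent.Lib.MP_c80ac4_an.Local.ThinEx

/-!
# Forcing sets, Cantor sets and Pisot numbers

Let `E(θ, A)` be the set of all `exp (2 π i x)` with `x = ∑ d j θ ^ (-j-1)`, `d j ∈ A`. If `θ > 1`
and `A` is a finite set of reals which contains `0` and some nonzero element of `ℚ(θ)`, then
`E(θ, A)` is the boundary part of a forcing set if and only if `θ` is not a Pisot number or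
`A` is not contained in `ℚ(θ)` or `E(θ, A)` contains an arc: the analogue of the theorem of Salem and
Zygmund on sets of uniqueness, overlaps are allowed. In particular, for `θ > 2` the symmetric Cantor
set of constant ratio `1 / θ` is the boundary part of a forcing set if and only if `θ` is not a Pisot
number. For Pisot numbers `θ` and finite sets `A ⊆ ℚ(θ)` such that `E(θ, A)` contains no arc (for
instance if `A` has less than `θ` elements) no forcing subset `S` of the unit disc has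
`closure S ∩ T ⊆ E(θ, A)`, and the same holds for almost all dilations `r A` of `A`. If `θ > 1` and `A` is any set of at least two reals, then the union of the
radii to `E(θ, A)` is forcing unless `θ` is a Pisot number and `A - A ⊆ r ℚ(θ)` for some real `r`.

The reason for the first part is a zero-one law: if for some `q > 1` and `γ < 1` the constant one is
on `E`, up to arbitrarily small errors, a `q`-lacunary polynomial with large frequencies plus a
trigonometric polynomial with absolute coefficient sum at most `γ`, then for every ratio `q' < q` it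
is a uniform limit on `E` of `q'`-lacunary polynomials with large frequencies, and no `S` with
`closure S ∩ T ⊆ E` is forcing; this hypothesis holds as soon as joint power images
`{(z ^ n 1, …, z ^ n m) : z ∈ E}` in a rationally independent direction miss a fixed open subset of
`T ^ m` for arbitrarily large exponents. So the joint power images of the boundary part of a forcing
set become dense in `T ^ m`.

The reason for the second part is that the means of all characters tend to zero under the digit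
measures, uniformly over all adaptive biases of the correlations of neighbouring digits.
-/

namespace Pool.Agent.Results.MP_c80ac4_an.PowerImages

open Forcing Forcing.HS Forcing.HM Forcing.DP Metric Set Polynomial MeasureTheory IntermediateField

/-- **Forcing sets, Cantor sets and Pisot numbers.** -/
theorem result :
    -- the dichotomy
    (∀ (θ : ℝ) (A : Finset ℝ), 1 < θ → (0 : ℝ) ∈ A → (∃ a ∈ A, a ≠ 0 ∧ a ∈ ℚ⟮θ⟯) →
      ((∃ S : Set ℂ, S ⊆ ball 0 1 ∧ IsForcing S ∧ closure S ∩ sphere 0 1 =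
        {z | ∃ x ∈ digitSet θ (A : Set ℝ), z = Complex.exp (2 * Real.pi * x * Complex.I)}) ↔
          ¬ IsPisot θ ∨ (¬ ∀ a ∈ A, a ∈ ℚ⟮θ⟯) ∨
            ∃ z₀ : ℂ, ‖z₀‖ = 1 ∧ ∃ ε : ℝ, 0 < ε ∧ ∀ z : ℂ, ‖z‖ = 1 → ‖z - z₀‖ < ε →
              ∃ x ∈ digitSet θ (A : Set ℝ), z = Complex.exp (2 * Real.pi * x * Complex.I))) ∧
    -- digit sets of Pisot numbers
    (∀ (θ : ℝ) (A : Finset ℝ), IsPisot θ → (∀ a ∈ A, a ∈ ℚ⟮θ⟯) →
      ¬ (∃ z₀ : ℂ, ‖z₀‖ = 1 ∧ ∃ ε : ℝ, 0 < ε ∧ ∀ z : ℂ, ‖z‖ = 1 → ‖z - z₀‖ < ε →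
        ∃ x ∈ digitSet θ (A : Set ℝ), z = Complex.exp (2 * Real.pi * x * Complex.I)) →
      (∀ S : Set ℂ, S ⊆ ball 0 1 →
        (∀ z ∈ closure S, ‖z‖ = 1 → ∃ x ∈ digitSet θ (A : Set ℝ),
          z = Complex.exp (2 * Real.pi * x * Complex.I)) → ¬ IsForcing S) ∧
      ∀ᵐ r : ℝ ∂volume, ∀ S : Set ℂ, S ⊆ ball 0 1 →
        (∀ z ∈ closure S, ‖z‖ = 1 → ∃ x ∈ digitSet θ ((fun a => r * a) '' (A : Set ℝ)),
          z = Complex.exp (2 * Real.pi * x * Complex.I)) → ¬ IsForcing S) ∧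
    -- digit sets that are not commensurable with the field of a Pisot number
    (∀ (θ : ℝ) (A : Set ℝ), 1 < θ → A.Nontrivial →
      (¬ IsPisot θ ∨ ∀ r : ℝ, ¬ ∀ b ∈ A, ∀ c ∈ A, ∃ x ∈ ℚ⟮θ⟯, b - c = r * x) →
      IsForcing {z | ∃ t ∈ Ico (0 : ℝ) 1,
        ∃ x ∈ digitSet θ A, z = t * Complex.exp (2 * Real.pi * x * Complex.I)}) ∧
    -- joint power images of the boundary part of a forcing set become dense
    (∀ S : Set ℂ, S ⊆ ball 0 1 → IsForcing S → ∀ (m : ℕ) (ρ : Fin m → ℝ) (ε : ℝ),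
      LinearIndependent ℚ ρ → 0 < ε → ∃ κ R : ℝ, 0 < κ ∧ ∀ (n : Fin m → ℤ) (t : ℝ), R ≤ t →
        (∀ i, |(n i : ℝ) - t * ρ i| ≤ κ * t) → ∀ w : Fin m → ℂ, (∀ i, ‖w i‖ = 1) →
          ∃ z ∈ closure S, ‖z‖ = 1 ∧ ∀ i, ‖z ^ n i - w i‖ < ε) ∧
    -- the zero-one law
    (∀ (E : Set ℂ) (q γ : ℝ), E ⊆ sphere 0 1 → 1 < q → γ < 1 → TwoSided E q γ →
      (∀ q' : ℝ, 1 < q' → q' < q → ∀ (N : ℕ) (ε : ℝ), 0 < ε → ∃ (s : Finset ℕ) (c : ℕ → ℂ),
        LacSet q' N (s : Set ℕ) ∧ ∀ z ∈ E, ‖1 - ∑ n ∈ s, c n * z ^ n‖ ≤ ε) ∧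
      ∀ S : Set ℂ, S ⊆ ball 0 1 → closure S ∩ sphere 0 1 ⊆ E → ¬ IsForcing S) := by
  have hind : ∀ {m : ℕ} {ρ : Fin m → ℝ}, LinearIndependent ℚ ρ →
      ∀ j : Fin m → ℤ, ∑ i, (j i : ℝ) * ρ i = 0 → j = 0 := by
    intro m ρ h j hj
    have h1 := Fintype.linearIndependent_iff.1 h (fun i => (j i : ℚ)) (by
      rw [← hj]
      refine Finset.sum_congr rfl fun i _ => ?_
      rw [Algebra.smul_def]
      simp)
    funext i
    have := h1 i
    exact_mod_cast this
  have hset : ∀ (θ : ℝ) (A : Set ℝ), {z : ℂ | ∃ x ∈ digitSet θ A,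
      z = Complex.exp (2 * Real.pi * x * Complex.I)} = Ratio.e '' digitSet θ A := by
    intro θ A
    ext z
    constructor
    · rintro ⟨x, hx, rfl⟩
      refine ⟨x, hx, ?_⟩
      unfold Ratio.e
      push_cast
      rfl
    · rintro ⟨x, hx, rfl⟩
      refine ⟨x, hx, ?_⟩
      unfold Ratio.e
      push_cast
      rfl
  refine ⟨?_, ?_, ?_, ?_, ?_⟩
  · intro θ A hθ h0 ha
    have h1 := digit_iff' hθ A h0 ha
    unfold HasArc at h1
    rw [← hset] at h1
    exact h1
  · intro θ A hθ hA harc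
    have harc' : ¬ HasArc (Ratio.e '' digitSet θ (A : Set ℝ)) := by
      unfold HasArc
      rw [← hset]
      exact harc
    refine ⟨fun S hS hE hF => ?_, ?_⟩
    · refine not_sidonOn_of_pisot' hθ A (fun a ha => DW.aeval_of_mem hθ (hA a ha)) harc'
        (E := closure S ∩ sphere 0 1) ?_ (sidonOn_of_forcing hS hF)
      intro z hz
      rw [← hset]
      exact hE z hz.1 (by simpa using hz.2)
    · filter_upwards [ae_not_sidonOn hθ A (fun a ha => DW.aeval_of_mem hθ (hA a ha)) harc']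
        with r hr S hS hE hF
      refine hr (closure S ∩ sphere 0 1) ?_ (sidonOn_of_forcing hS hF)
      intro z hz
      rw [← hset]
      exact hE z hz.1 (by simpa using hz.2)
  · intro θ A hθ hA h
    have h2 : ¬ (IsPisot θ ∧ ∃ r : ℝ, ∀ b ∈ A, ∀ c ∈ A, ∃ x ∈ ℚ⟮θ⟯, b - c = r * x) := by
      rintro ⟨hp, r, hr⟩
      rcases h with h | h
      · exact h hp
      · exact h r hr
    have h3 := forcing_radii (fun z hz => by
      obtain ⟨x, -, rfl⟩ := hz
      simpa using Ratio.norm_e x) (DW.sidonOn_of_digits hθ hA h2)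
    convert h3 using 1
    ext z
    constructor
    · rintro ⟨t, ht, x, hx, rfl⟩
      refine ⟨t, ht, Ratio.e x, ⟨x, hx, rfl⟩, ?_⟩
      unfold Ratio.e
      push_cast
      rfl
    · rintro ⟨t, ht, _, ⟨x, hx, rfl⟩, rfl⟩
      refine ⟨t, ht, x, hx, ?_⟩
      unfold Ratio.e
      push_cast
      rfl
  · intro S hS hF m ρ ε hρ hε
    obtain ⟨κ, R, hκ, h⟩ := joint_dense (hind hρ) inter_subset_right (sidonOn_of_forcing hS hF) hε
    refine ⟨κ, R, hκ, fun n t ht hn w hw => ?_⟩
    obtain ⟨z, hz, hz2⟩ := h n t ht hn w hw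
    exact ⟨z, hz.1, by simpa using hz.2, hz2⟩
  · intro E q γ hE hq hγ hT
    refine ⟨fun q' h1 h2 N ε hε => ?_, fun S hS hSE hF => ?_⟩
    · obtain ⟨s, c, h3, h4⟩ := good_zero hE hT hγ q' h1 h2 N ε hε
      exact ⟨s, c, h3, fun z hz => by simpa using h4 z hz⟩
    · exact not_sidonOn_of_twoSided hE hq hT hγ ((sidonOn_of_forcing hS hF).mono hSE)

end Pool.Agent.Results.MP_c80ac4_an.PowerImages
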